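import Pool.Agent.Lib_helper89.FlipLim

/-!
# The smallest order of a `(b,r)`-flip graph up to `O(b)`

For every `q ≥ 2` the smallest order is `(q+1) r + O_q(b)` as long as `r - b + 1` lies between the
numbers of edges of the balanced complete `(q-1)`-partite and `q`-partite graphs on `b` vertices.
-/

set_option autoImplicit false

open Pool.Agent.Flip Filter Topology

namespace Pool.Agent.Results.MP_1e5ebc_co.Asymptotics

theorem result :
    (∀ b r q : ℕ, 2 ≤ q → q ≤ b → b < r →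
      ((q : ℤ) - 2) * (b : ℤ) ^ 2 < 2 * ((q : ℤ) - 1) * ((r : ℤ) - b + 1) →
      2 * (r + 1) ≤ 2 * b + q * (q - 1) * (b / q) ^ 2 →
      2 * ((q - 1).factorial : ℤ) * (((q : ℤ) + 1) * r - minOrder b r)
          < (q : ℤ) * (q + 1) * ((q : ℤ) - 1) ^ (q - 2) * b ∧
        minOrder b r ≤ (q + 1) * (r + q + 3 * (b / q))) ∧
    (∀ (q : ℕ) (x : ℝ), 2 ≤ q → (q = 2 ∨ ((q : ℝ) - 2) / (2 * ((q : ℝ) - 1)) < x) →
      x < ((q : ℝ) - 1) / (2 * q) → ∀ r : ℕ → ℕ,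
      Tendsto (fun b => (r b : ℝ) / b) atTop atTop →
      Tendsto (fun b => (r b : ℝ) / (b : ℝ) ^ 2) atTop (𝓝 x) →
      Tendsto (fun b => (minOrder b (r b) : ℝ) / (r b)) atTop (𝓝 ((q : ℝ) + 1))) := by
  refine ⟨?_, fun q x hq hx1 hx2 r hr1 hr2 => lim_block_proof q hq x hx1 hx2 r hr1 hr2⟩
  intro b r q hq hqb hbr h1 h2
  obtain ⟨n, hn, hf⟩ := upper_bound b r q hq hqb h2
  refine ⟨?_, (minOrder_le hf).trans hn⟩
  obtain ⟨hn0, B, R, hBR⟩ := minOrder_mem hf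
  have : Nonempty (Fin (minOrder b r)) := ⟨⟨0, hn0⟩⟩
  have h3 := (core_of_isFlip hBR).clq (by omega) q hq h1
  rwa [Fintype.card_fin] at h3

end Pool.Agent.Results.MP_1e5ebc_co.Asymptotics
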