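import Pool.Agent.Lib_helper89.FlipRange

/-!
# The smallest order of a `(b,r)`-flip graph for `r` up to about `7b/5`

`Fits b r z` collects the two handshake conditions for graphs of order `b + r + 1 + z` and the
inequality `z (z-1) ≥ 2 + (r-b)(b+r+1-z)`.  If `z` is the least number with `Fits b r z`, then the
smallest order of a `(b,r)`-flip graph is `b + r + 1 + z`.
-/

set_option autoImplicit false

open Pool.Agent.Flip

namespace Pool.Agent.Results.MP_1e5ebc_co.ExactRange

theorem result :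
    (∀ b r : ℕ, 3 ≤ b → b < r → 5 * r + 30 ≤ 7 * b →
      ∃ z, IsLeast {z | Fits b r z} z ∧
        (minOrder b r = b + r + 1 + z ∨ minOrder b r = b + r + 2 + z) ∧
        (Odd b ∨ Odd r ∨ Odd z → minOrder b r = b + r + 1 + z)) ∧
    (∀ b r : ℕ, 4 ≤ b → b < r → (8 * r ≤ 9 * b ∨ r = b + 1) →
      ∃ z, IsLeast {z | Fits b r z} z ∧ minOrder b r = b + r + 1 + z) ∧
    minOrder 3 4 = 14 :=
  ⟨exact_mid, exact_low, minOrder_3_4⟩

end Pool.Agent.Results.MP_1e5ebc_co.ExactRange
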