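import Pool.Agent.Lib_helper89.FlipLim

/-!
# Lower bounds on the smallest order of a `(b,r)`-flip graph, for all admissible pairs
-/

set_option autoImplicit false

open Pool.Agent.Flip

namespace Pool.Agent.Results.MP_1e5ebc_co.LowerBound

theorem result (b r : ℕ) (hb : 3 ≤ b) (hbr : b < r) (hr : 2 * (r + 1) ≤ b * (b + 1)) :
    HasFlip b r (minOrder b r) ∧
    (b + r + 1) * (2 * r - b) + 2 ≤ r * minOrder b r ∧
    (∀ m : ℕ, 2 * m ≤ r - b + 1 →
      (r : ℤ) * (2 * m * b - ((b : ℤ) ^ 2 + b - 2 - 2 * r))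
        ≤ m * (m + 1) * ((minOrder b r : ℤ) - 1 - r)) ∧
    (3 * b ≤ r → (b : ℤ) ^ 2 * r
        ≤ ((minOrder b r : ℤ) - 1 - r) * ((b : ℤ) ^ 2 + 2 * b - 2 - 2 * r)) := by
  have h1 : HasFlip b r ((b + 1) * (r + 1)) := top_constr_proof b r (by omega) (by omega)
  have hm := minOrder_mem h1
  obtain ⟨hn0, B, R, hBR⟩ := minOrder_mem h1
  set n := minOrder b r with hn
  have : Nonempty (Fin n) := ⟨⟨0, hn0⟩⟩
  have hc := core_of_isFlip hBR
  have hbr' : (b : ℤ) + 1 ≤ r := by exact_mod_cast hbr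
  have hr' : 2 * ((r : ℤ) + 1) ≤ b * (b + 1) := by exact_mod_cast hr
  have hb' : (3 : ℤ) ≤ b := by exact_mod_cast hb
  have hJ : ∀ m : ℕ, 2 * m ≤ r - b + 1 →
      (r : ℤ) * (2 * m * b - ((b : ℤ) ^ 2 + b - 2 - 2 * r))
        ≤ m * (m + 1) * ((n : ℤ) - 1 - r) := by
    intro m hm2
    have h2 : 2 * (m : ℤ) ≤ (r : ℤ) - b + 1 := by omega
    have h3 := hc.J_proof (m : ℤ) (by positivity) (by omega) h2
    rwa [Fintype.card_fin] at h3
  refine ⟨hm, ?_, hJ, ?_⟩
  · have h2 := hc.low2_proof ((n : ℤ) - b - r - 1) (by rw [Fintype.card_fin]; ring)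
    rw [Fintype.card_fin] at h2
    have h3 : ((b : ℤ) + r + 1) * (2 * r - b) + 2 ≤ r * n := by nlinarith
    have h4 : ((2 * r - b : ℕ) : ℤ) = 2 * (r : ℤ) - b := by
      rw [Nat.cast_sub (by omega)]; push_cast; ring
    have h5 : (((b + r + 1) * (2 * r - b) + 2 : ℕ) : ℤ) ≤ ((r * n : ℕ) : ℤ) := by
      push_cast [h4]
      exact h3
    exact_mod_cast h5
  · intro h3b
    have h3b' : 3 * (b : ℤ) ≤ r := by exact_mod_cast h3b
    set D : ℤ := (b : ℤ) ^ 2 + b - 2 - 2 * r with hD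
    have hD0 : 0 ≤ D := by rw [hD]; nlinarith
    have hbpos : (0 : ℤ) < b := by linarith
    set m' : ℤ := D / b + 1 with hm'
    have e1 : (b : ℤ) * (m' - 1) ≤ D := by
      have := Int.mul_ediv_self_le (x := D) (k := (b : ℤ)) hbpos.ne'
      rw [hm']; linarith
    have e2 : D < b * m' := by
      have := Int.lt_mul_ediv_self_add (x := D) hbpos
      rw [hm']; linarith
    have hm0 : 0 < m' := by
      have : 0 ≤ D / b := Int.ediv_nonneg hD0 hbpos.le
      omega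
    obtain ⟨m, hmm⟩ := Int.eq_ofNat_of_zero_le hm0.le
    have hmm' : m' = (m : ℤ) := hmm
    have e3 : 2 * m' ≤ (r : ℤ) - b + 1 := by
      by_contra hcon
      push Not at hcon
      have : (r : ℤ) - b + 2 ≤ 2 * m' := by omega
      nlinarith
    have h4 := hJ m (by omega)
    rw [← hmm'] at h4
    have hpos : 0 < m' * (m' + 1) := by positivity
    have h5 : (b : ℤ) ^ 2 * (m' * (m' + 1)) ≤ (2 * m' * b - D) * (b + D) := by
      nlinarith [mul_nonneg (sub_nonneg.2 e1) (sub_nonneg.2 e2.le)]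
    have h6 : (0 : ℤ) ≤ b + D := by linarith
    have h7 : ((b : ℤ) ^ 2 + 2 * b - 2 - 2 * r) = b + D := by rw [hD]; ring
    rw [h7]
    have hr0 : (0 : ℤ) ≤ r := by positivity
    have h8 : (b : ℤ) ^ 2 * r * (m' * (m' + 1)) ≤
        ((n : ℤ) - 1 - r) * (b + D) * (m' * (m' + 1)) := by
      calc (b : ℤ) ^ 2 * r * (m' * (m' + 1)) = r * ((b : ℤ) ^ 2 * (m' * (m' + 1))) := by ring
        _ ≤ r * ((2 * m' * b - D) * (b + D)) := mul_le_mul_of_nonneg_left h5 hr0
        _ = (r * (2 * m' * b - D)) * (b + D) := by ring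
        _ ≤ (m' * (m' + 1) * ((n : ℤ) - 1 - r)) * (b + D) := mul_le_mul_of_nonneg_right h4 h6
        _ = ((n : ℤ) - 1 - r) * (b + D) * (m' * (m' + 1)) := by ring
    exact le_of_mul_le_mul_right h8 hpos

end Pool.Agent.Results.MP_1e5ebc_co.LowerBound
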