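import Pool.Agent.Lib_helper89.FlipW2

/-!
# The smallest order of a `(b,r)`-flip graph for the largest possible `r`

For `b ≥ 3` the largest red degree of a flip graph with blue degree `b` is `r = b(b+1)/2 - 1`, and
for this `r` the smallest order of a `(b,r)`-flip graph is exactly `(b+1)(r+1) = b(b+1)^2/2`.
-/

set_option autoImplicit false

open Pool.Agent.Flip

namespace Pool.Agent.Results.MP_1e5ebc_co.TopValue

theorem result (b r : ℕ) (hb : 3 ≤ b) (hr : 2 * (r + 1) = b * (b + 1)) :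
    IsLeast {n : ℕ | HasFlip b r n} ((b + 1) * (r + 1)) ∧
      minOrder b r = (b + 1) * (r + 1) ∧ 2 * minOrder b r = b * (b + 1) ^ 2 := by
  have h1 : HasFlip b r ((b + 1) * (r + 1)) :=
    top_constr_proof b r (by omega) (by omega)
  have h2 : IsLeast {n : ℕ | HasFlip b r n} ((b + 1) * (r + 1)) := by
    refine ⟨h1, ?_⟩
    rintro n ⟨hn, B, R, hBR⟩
    have : Nonempty (Fin n) := ⟨⟨0, hn⟩⟩
    have h3 := (core_of_isFlip hBR).top_proof hb (by omega)
    rwa [Fintype.card_fin] at h3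
  have h4 : minOrder b r = (b + 1) * (r + 1) :=
    le_antisymm (Nat.sInf_le h1) (h2.2 (Nat.sInf_mem (s := {n | HasFlip b r n}) ⟨_, h1⟩))
  refine ⟨h2, h4, ?_⟩
  rw [h4]
  calc 2 * ((b + 1) * (r + 1)) = (b + 1) * (2 * (r + 1)) := by ring
    _ = (b + 1) * (b * (b + 1)) := by rw [hr]
    _ = b * (b + 1) ^ 2 := by ring

end Pool.Agent.Results.MP_1e5ebc_co.TopValue
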